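import Pool.Agent.TH317.CC.Arr

/-!
# Planar drawing of the arrangement graph in a rectangle
(project MP_86dbc7_gt of helper317, job CC-R3, helper593)
-/

set_option autoImplicit false
set_option linter.unusedVariables false

universe u v w

namespace Pool.Agent.TH317.CC

open Filter Topology

namespace H593

section Basic

variable {M : Type u} [MetricSpace M] {n : ℕ} (C : BoxCharts M n) (m : ℕ)
  (s : Fin n → Bool → ℝ)

theorem lineC_mem (hm : 1 ≤ m) (hoff : ∀ i o, 0 < s i o ∧ s i o < 1) (l : LineIx n m) :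
    0 < lineC m s l ∧ lineC m s l < 1 := by
  have hm' : (0 : ℝ) < m := by exact_mod_cast (show 0 < m by omega)
  obtain ⟨h1, h2⟩ := hoff l.1 l.2.1
  have hk : ((l.2.2 : ℕ) : ℝ) + 1 ≤ m := by exact_mod_cast l.2.2.2
  have hk0 : (0 : ℝ) ≤ ((l.2.2 : ℕ) : ℝ) := Nat.cast_nonneg _
  unfold lineC
  constructor
  · positivity
  · rw [div_lt_one hm']; linarith

theorem mem_I2 {p : ℝ × ℝ} : p ∈ I2 ↔ (0 ≤ p.1 ∧ p.1 ≤ 1) ∧ (0 ≤ p.2 ∧ p.2 ≤ 1) := by
  unfold I2
  rw [Set.mem_Icc, Prod.le_def, Prod.le_def]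
  simp only
  tauto

theorem lineP_mem (hm : 1 ≤ m) (hoff : ∀ i o, 0 < s i o ∧ s i o < 1) (l : LineIx n m)
    {t : ℝ} (ht : t ∈ Set.Icc (0 : ℝ) 1) : lineP m s l t ∈ I2 := by
  obtain ⟨h1, h2⟩ := lineC_mem m s hm hoff l
  rw [mem_I2]
  unfold lineP
  split_ifs
  · exact ⟨⟨h1.le, h2.le⟩, ht.1, ht.2⟩
  · exact ⟨⟨ht.1, ht.2⟩, h1.le, h2.le⟩

theorem lineP_target (hm : 1 ≤ m) (hoff : ∀ i o, 0 < s i o ∧ s i o < 1) (l : LineIx n m)
    {t : ℝ} (ht : t ∈ Set.Icc (0 : ℝ) 1) : lineP m s l t ∈ (C.e l.1).target :=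
  C.box l.1 (lineP_mem m s hm hoff l ht)

theorem lineP_inj (l : LineIx n m) {t t' : ℝ} (h : lineP m s l t = lineP m s l t') : t = t' := by
  unfold lineP at h
  split_ifs at h
  · exact congrArg Prod.snd h
  · exact congrArg Prod.fst h

theorem line_inj (hm : 1 ≤ m) (hoff : ∀ i o, 0 < s i o ∧ s i o < 1) (l : LineIx n m)
    {t t' : ℝ} (ht : t ∈ Set.Icc (0 : ℝ) 1) (ht' : t' ∈ Set.Icc (0 : ℝ) 1)
    (h : line C m s l t = line C m s l t') : t = t' := by
  apply lineP_inj m s l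
  exact (C.e l.1).symm.injOn (lineP_target C m s hm hoff l ht) (lineP_target C m s hm hoff l ht') h

theorem lineP_cont (l : LineIx n m) : Continuous (lineP m s l) := by
  unfold lineP
  split_ifs
  · exact continuous_const.prodMk continuous_id
  · exact continuous_id.prodMk continuous_const

theorem line_cont (hm : 1 ≤ m) (hoff : ∀ i o, 0 < s i o ∧ s i o < 1) (l : LineIx n m) :
    ContinuousOn (line C m s l) (Set.Icc 0 1) := by
  unfold line
  exact (C.e l.1).continuousOn_symm.comp (lineP_cont m s l).continuousOn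
    (fun t ht => lineP_target C m s hm hoff l ht)

theorem lineP_deriv (l : LineIx n m) (t : ℝ) : HasDerivAt (lineP m s l) (lineE m l) t := by
  unfold lineP lineE
  split_ifs
  · exact (hasDerivAt_const t _).prodMk (hasDerivAt_id t)
  · exact (hasDerivAt_id t).prodMk (hasDerivAt_const t _)

/-- the transition map is differentiable on the overlap -/
theorem trans_diff (j j' : Fin n) {p : ℝ × ℝ} (hp : p ∈ (C.e j).target)
    (hp' : (C.e j).symm p ∈ (C.e j').source) :
    HasFDerivAt (fun p => C.e j' ((C.e j).symm p))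
      (fderiv ℝ (fun p => C.e j' ((C.e j).symm p)) p) p := by
  have hmem : p ∈ ((C.e j).symm.trans (C.e j')).source := by
    rw [OpenPartialHomeomorph.trans_source]
    exact ⟨hp, hp'⟩
  have hopen : IsOpen ((C.e j).symm.trans (C.e j')).source :=
    ((C.e j).symm.trans (C.e j')).open_source
  exact (((C.smooth j j').differentiableOn (by norm_num)).differentiableAt
    (hopen.mem_nhds hmem)).hasFDerivAt

theorem det2_map (D : (ℝ × ℝ) →L[ℝ] (ℝ × ℝ)) (u v : ℝ × ℝ) :
    det2 (D u) (D v) = D.det * det2 u v := by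
  have hdet : D.det = (D (1, 0)).1 * (D (0, 1)).2 - (D (0, 1)).1 * (D (1, 0)).2 := by
    have h1 : D.det = LinearMap.det (D : (ℝ × ℝ) →ₗ[ℝ] (ℝ × ℝ)) := rfl
    rw [h1, ← LinearMap.det_toMatrix (Module.Basis.finTwoProd ℝ), Matrix.det_fin_two]
    simp [LinearMap.toMatrix_apply]
  have hu : D u = u.1 • D (1, 0) + u.2 • D (0, 1) := by
    rw [← map_smul, ← map_smul, ← map_add]
    congr 1
    ext <;> simp
  have hv : D v = v.1 • D (1, 0) + v.2 • D (0, 1) := by
    rw [← map_smul, ← map_smul, ← map_add]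
    congr 1
    ext <;> simp
  rw [hdet, hu, hv]
  unfold det2
  simp only [Prod.fst_add, Prod.snd_add, Prod.smul_fst, Prod.smul_snd, smul_eq_mul]
  ring

/-- change of chart for the tangent vectors -/
theorem tanv_change (hm : 1 ≤ m) (hoff : ∀ i o, 0 < s i o ∧ s i o < 1) (l : LineIx n m)
    {t : ℝ} (ht : t ∈ Set.Icc (0 : ℝ) 1) (j j' : Fin n)
    (hj : line C m s l t ∈ (C.e j).source) (hj' : line C m s l t ∈ (C.e j').source) :
    tanv C m s j' l t = fderiv ℝ (fun p => C.e j' ((C.e j).symm p)) (C.e j (line C m s l t))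
      (tanv C m s j l t) := by
  have htar := lineP_target C m s hm hoff l ht
  have h1 := trans_diff C l.1 j htar hj
  have hq : C.e j (line C m s l t) ∈ (C.e j).target := (C.e j).map_source hj
  have hq' : (C.e j).symm (C.e j (line C m s l t)) ∈ (C.e j').source := by
    rw [(C.e j).left_inv hj]; exact hj'
  have h2 := trans_diff C j j' hq hq'
  have h3 := trans_diff C l.1 j' htar hj'
  have h4 : HasFDerivAt ((fun p => C.e j' ((C.e j).symm p)) ∘ (fun p => C.e j ((C.e l.1).symm p)))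
      ((fderiv ℝ (fun p => C.e j' ((C.e j).symm p)) (C.e j (line C m s l t))).comp
        (fderiv ℝ (fun p => C.e j ((C.e l.1).symm p)) (lineP m s l t))) (lineP m s l t) :=
    HasFDerivAt.comp _ h2 h1
  have hev : (fun p => C.e j' ((C.e l.1).symm p)) =ᶠ[𝓝 (lineP m s l t)]
      ((fun p => C.e j' ((C.e j).symm p)) ∘ (fun p => C.e j ((C.e l.1).symm p))) := by
    have hopen : IsOpen ((C.e l.1).symm.trans (C.e j)).source :=
      ((C.e l.1).symm.trans (C.e j)).open_source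
    have hmem : lineP m s l t ∈ ((C.e l.1).symm.trans (C.e j)).source := by
      rw [OpenPartialHomeomorph.trans_source]
      exact ⟨htar, hj⟩
    filter_upwards [hopen.mem_nhds hmem] with p hp
    rw [OpenPartialHomeomorph.trans_source] at hp
    have hp2 : (C.e l.1).symm p ∈ (C.e j).source := hp.2
    simp only [Function.comp]
    rw [(C.e j).left_inv hp2]
  have h5 := h4.congr_of_eventuallyEq hev
  have h6 := h3.unique h5
  unfold tanv
  rw [h6]
  rfl

/-- the sign of the determinant does not depend on the chart -/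
theorem sign_change (hm : 1 ≤ m) (hoff : ∀ i o, 0 < s i o ∧ s i o < 1) (l l' : LineIx n m)
    {t t' : ℝ} (ht : t ∈ Set.Icc (0 : ℝ) 1) (ht' : t' ∈ Set.Icc (0 : ℝ) 1)
    (heq : line C m s l t = line C m s l' t') (j j' : Fin n)
    (hj : line C m s l t ∈ (C.e j).source) (hj' : line C m s l t ∈ (C.e j').source)
    (hpos : 0 < det2 (tanv C m s j l t) (tanv C m s j l' t')) :
    0 < det2 (tanv C m s j' l t) (tanv C m s j' l' t') := by
  have h1 := tanv_change C m s hm hoff l ht j j' hj hj'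
  have h2 := tanv_change C m s hm hoff l' ht' j j' (heq ▸ hj) (heq ▸ hj')
  rw [← heq] at h2
  rw [h1, h2, det2_map]
  apply mul_pos _ hpos
  apply C.orient
  rw [OpenPartialHomeomorph.trans_source]
  refine ⟨(C.e j).map_source hj, ?_⟩
  show (C.e j).symm (C.e j (line C m s l t)) ∈ (C.e j').source
  rw [(C.e j).left_inv hj]; exact hj'

theorem det2_swap (A B : ℝ × ℝ) : det2 B A = - det2 A B := by
  unfold det2; ring

end Basic

section Rect

variable {M : Type u} [MetricSpace M] {n : ℕ} (C : BoxCharts M n) (m : ℕ)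
  (s : Fin n → Bool → ℝ)

/-- the closed rectangle -/
def rectC (i : Fin n) (k₁ k₂ k₃ k₄ : Fin m) : Set M :=
  (C.e i).symm '' (Set.Icc (lineC m s (i, true, k₁)) (lineC m s (i, true, k₂)) ×ˢ
    Set.Icc (lineC m s (i, false, k₃)) (lineC m s (i, false, k₄)))

theorem rectC_sub_I2 (hm : 1 ≤ m) (hoff : ∀ i o, 0 < s i o ∧ s i o < 1) (i : Fin n)
    (k₁ k₂ k₃ k₄ : Fin m) :
    Set.Icc (lineC m s (i, true, k₁)) (lineC m s (i, true, k₂)) ×ˢ
      Set.Icc (lineC m s (i, false, k₃)) (lineC m s (i, false, k₄)) ⊆ I2 := by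
  rintro ⟨x, y⟩ ⟨hx, hy⟩
  have h1 := lineC_mem m s hm hoff (i, true, k₁)
  have h2 := lineC_mem m s hm hoff (i, true, k₂)
  have h3 := lineC_mem m s hm hoff (i, false, k₃)
  have h4 := lineC_mem m s hm hoff (i, false, k₄)
  rw [mem_I2]
  simp only [Set.mem_Icc] at hx hy
  refine ⟨⟨?_, ?_⟩, ?_, ?_⟩
  · exact h1.1.le.trans hx.1
  · exact hx.2.trans h2.2.le
  · exact h3.1.le.trans hy.1
  · exact hy.2.trans h4.2.le

theorem rectC_closed (hm : 1 ≤ m) (hoff : ∀ i o, 0 < s i o ∧ s i o < 1) (i : Fin n)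
    (k₁ k₂ k₃ k₄ : Fin m) : IsClosed (rectC C m s i k₁ k₂ k₃ k₄) := by
  apply IsCompact.isClosed
  apply IsCompact.image_of_continuousOn
  · exact isCompact_Icc.prod isCompact_Icc
  · exact (C.e i).continuousOn_symm.mono
      ((rectC_sub_I2 m s hm hoff i k₁ k₂ k₃ k₄).trans (C.box i))

theorem mem_rectC (hm : 1 ≤ m) (hoff : ∀ i o, 0 < s i o ∧ s i o < 1) (i : Fin n)
    (k₁ k₂ k₃ k₄ : Fin m) {x : M} (hx : x ∈ rectC C m s i k₁ k₂ k₃ k₄) :
    x ∈ (C.e i).source ∧
      (lineC m s (i, true, k₁) ≤ (C.e i x).1 ∧ (C.e i x).1 ≤ lineC m s (i, true, k₂)) ∧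
      (lineC m s (i, false, k₃) ≤ (C.e i x).2 ∧ (C.e i x).2 ≤ lineC m s (i, false, k₄)) := by
  obtain ⟨p, hp, rfl⟩ := hx
  have htar : p ∈ (C.e i).target := C.box i (rectC_sub_I2 m s hm hoff i k₁ k₂ k₃ k₄ hp)
  rw [(C.e i).right_inv htar]
  exact ⟨(C.e i).map_target htar, hp.1, hp.2⟩

theorem rectS_sub (i : Fin n) (k₁ k₂ k₃ k₄ : Fin m) :
    rectS C m s i k₁ k₂ k₃ k₄ ⊆ rectC C m s i k₁ k₂ k₃ k₄ := by
  rintro x ⟨hx, h1, h2, h3, h4⟩
  exact ⟨C.e i x, ⟨⟨h1.le, h2.le⟩, h3.le, h4.le⟩, (C.e i).left_inv hx⟩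

theorem rectS_open (i : Fin n) (k₁ k₂ k₃ k₄ : Fin m) :
    IsOpen (rectS C m s i k₁ k₂ k₃ k₄) := by
  have h := (C.e i).isOpen_inter_preimage (s := Set.Ioo (lineC m s (i, true, k₁))
    (lineC m s (i, true, k₂)) ×ˢ
    Set.Ioo (lineC m s (i, false, k₃)) (lineC m s (i, false, k₄))) (isOpen_Ioo.prod isOpen_Ioo)
  convert h using 1
  ext x
  simp only [rectS, Set.mem_ofPred_eq, Set.mem_inter_iff, Set.mem_preimage, Set.mem_prod,
    Set.mem_Ioo]
  tauto

/-- a point of the closed rectangle which is not in the open one is on a boundary line -/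
theorem bdry_line (hm : 1 ≤ m) (hoff : ∀ i o, 0 < s i o ∧ s i o < 1) (i : Fin n)
    (k₁ k₂ k₃ k₄ : Fin m) {x : M} (hx : x ∈ rectC C m s i k₁ k₂ k₃ k₄)
    (hx' : x ∉ rectS C m s i k₁ k₂ k₃ k₄) :
    ∃ l : LineIx n m, l.1 = i ∧ (∃ t ∈ Set.Icc (0 : ℝ) 1, x = line C m s l t) ∧
      ∀ t ∈ Set.Icc (0 : ℝ) 1, line C m s l t ∉ rectS C m s i k₁ k₂ k₃ k₄ := by
  obtain ⟨hsrc, ⟨h1, h2⟩, h3, h4⟩ := mem_rectC C m s hm hoff i k₁ k₂ k₃ k₄ hx
  have b1 := lineC_mem m s hm hoff (i, true, k₁)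
  have b2 := lineC_mem m s hm hoff (i, true, k₂)
  have b3 := lineC_mem m s hm hoff (i, false, k₃)
  have b4 := lineC_mem m s hm hoff (i, false, k₄)
  have hcase : (C.e i x).1 = lineC m s (i, true, k₁) ∨ (C.e i x).1 = lineC m s (i, true, k₂) ∨
      (C.e i x).2 = lineC m s (i, false, k₃) ∨ (C.e i x).2 = lineC m s (i, false, k₄) := by
    by_contra hcon
    push Not at hcon
    obtain ⟨c1, c2, c3, c4⟩ := hcon
    exact hx' ⟨hsrc, lt_of_le_of_ne h1 (Ne.symm c1), lt_of_le_of_ne h2 c2,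
      lt_of_le_of_ne h3 (Ne.symm c3), lt_of_le_of_ne h4 c4⟩
  -- vertical lines
  have hv : ∀ k : Fin m, (C.e i x).1 = lineC m s (i, true, k) →
      (k = k₁ ∨ k = k₂) →
      ∃ l : LineIx n m, l.1 = i ∧ (∃ t ∈ Set.Icc (0 : ℝ) 1, x = line C m s l t) ∧
      ∀ t ∈ Set.Icc (0 : ℝ) 1, line C m s l t ∉ rectS C m s i k₁ k₂ k₃ k₄ := by
    intro k hk hkk
    refine ⟨(i, true, k), rfl, ⟨(C.e i x).2, ⟨b3.1.le.trans h3, h4.trans b4.2.le⟩, ?_⟩, ?_⟩
    · unfold line lineP
      simp only [if_true]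
      rw [← hk]
      exact ((C.e i).left_inv hsrc).symm
    · rintro t ht ⟨-, g1, g2, -, -⟩
      have htar := lineP_target C m s hm hoff (i, true, k) ht
      have hval : C.e i (line C m s (i, true, k) t) = lineP m s (i, true, k) t :=
        (C.e i).right_inv htar
      rw [hval] at g1 g2
      simp only [lineP, if_true] at g1 g2
      rcases hkk with rfl | rfl
      · exact lt_irrefl _ g1
      · exact lt_irrefl _ g2
  have hh : ∀ k : Fin m, (C.e i x).2 = lineC m s (i, false, k) →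
      (k = k₃ ∨ k = k₄) →
      ∃ l : LineIx n m, l.1 = i ∧ (∃ t ∈ Set.Icc (0 : ℝ) 1, x = line C m s l t) ∧
      ∀ t ∈ Set.Icc (0 : ℝ) 1, line C m s l t ∉ rectS C m s i k₁ k₂ k₃ k₄ := by
    intro k hk hkk
    refine ⟨(i, false, k), rfl, ⟨(C.e i x).1, ⟨b1.1.le.trans h1, h2.trans b2.2.le⟩, ?_⟩, ?_⟩
    · unfold line lineP
      simp only [Bool.false_eq_true, if_false]
      rw [← hk]
      exact ((C.e i).left_inv hsrc).symm
    · rintro t ht ⟨-, -, -, g1, g2⟩
      have htar := lineP_target C m s hm hoff (i, false, k) ht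
      have hval : C.e i (line C m s (i, false, k) t) = lineP m s (i, false, k) t :=
        (C.e i).right_inv htar
      rw [hval] at g1 g2
      simp only [lineP, Bool.false_eq_true, if_false] at g1 g2
      rcases hkk with rfl | rfl
      · exact lt_irrefl _ g1
      · exact lt_irrefl _ g2
  rcases hcase with h | h | h | h
  · exact hv _ h (Or.inl rfl)
  · exact hv _ h (Or.inr rfl)
  · exact hh _ h (Or.inl rfl)
  · exact hh _ h (Or.inr rfl)

/-- a dart starting in the open rectangle stays in it (except possibly its end point, which is in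
the closed rectangle) -/
theorem key (hm : 1 ≤ m) (hs : Generic C m s) (i : Fin n)
    (k₁ k₂ k₃ k₄ : Fin m) (d : ArrD C m s)
    (hd : line C m s d.1.1 d.1.2.1 ∈ rectS C m s i k₁ k₂ k₃ k₄) :
    (∀ t ∈ Set.Ico (0 : ℝ) 1, line C m s d.1.1 (d.1.2.1 + (d.1.2.2 - d.1.2.1) * t) ∈
      rectS C m s i k₁ k₂ k₃ k₄) ∧ line C m s d.1.1 d.1.2.2 ∈ rectC C m s i k₁ k₂ k₃ k₄ := by
  obtain ⟨⟨l, τ₀, τ₁⟩, h0, h1, hne, hcons⟩ := d
  simp only at h0 h1 hne hcons hd ⊢
  have hoff := hs.off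
  have hI : ∀ t ∈ Set.Icc (0 : ℝ) 1, τ₀ + (τ₁ - τ₀) * t ∈ Set.Icc (0 : ℝ) 1 := by
    intro t ht
    have a1 := h0.1
    have a2 := h1.1
    rw [Set.mem_Icc] at a1 a2 ht ⊢
    constructor
    · nlinarith
    · nlinarith
  set g : ℝ → M := fun t => line C m s l (τ₀ + (τ₁ - τ₀) * t) with hg
  have hgc : ContinuousOn g (Set.Icc 0 1) := by
    apply (line_cont C m s hm hoff l).comp (t := Set.Icc 0 1)
    · exact (continuous_const.add (continuous_const.mul continuous_id)).continuousOn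
    · exact hI
  have hsub : g '' (Set.Ico 0 1) ⊆ rectS C m s i k₁ k₂ k₃ k₄ ∪ (rectC C m s i k₁ k₂ k₃ k₄)ᶜ := by
    rintro _ ⟨t, ht, rfl⟩
    by_contra hcon
    rw [Set.mem_union, not_or, Set.mem_compl_iff, not_not] at hcon
    obtain ⟨hn, hc⟩ := hcon
    obtain ⟨l', hl', ⟨t', ht', heq⟩, hmiss⟩ := bdry_line C m s hm hoff i k₁ k₂ k₃ k₄ hc hn
    have htI : t ∈ Set.Icc (0 : ℝ) 1 := ⟨ht.1, ht.2.le⟩
    by_cases hll : l' = l
    · rw [hll] at hmiss
      exact hmiss τ₀ h0.1 hd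
    · have hcr : τ₀ + (τ₁ - τ₀) * t ∈ crossT C m s l := ⟨hI t htI, l', hll, t', ht', heq⟩
      have ht0 : 0 < t := by
        rcases ht.1.lt_or_eq with h | h
        · exact h
        · exfalso
          apply hn
          rw [← h]
          simpa [hg] using hd
      apply hcons _ hcr
      rcases lt_or_gt_of_ne hne with h | h
      · rw [min_eq_left h.le, max_eq_right h.le]
        constructor
        · nlinarith
        · nlinarith [ht.2]
      · rw [min_eq_right h.le, max_eq_left h.le]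
        constructor
        · nlinarith [ht.2]
        · nlinarith
  have hpre : IsPreconnected (g '' (Set.Ico 0 1)) :=
    isPreconnected_Ico.image g (hgc.mono Set.Ico_subset_Icc_self)
  have hS := rectS_open C m s i k₁ k₂ k₃ k₄
  have hCc := (rectC_closed C m s hm hoff i k₁ k₂ k₃ k₄).isOpen_compl
  have hdis : Disjoint (rectS C m s i k₁ k₂ k₃ k₄) (rectC C m s i k₁ k₂ k₃ k₄)ᶜ := by
    rw [Set.disjoint_compl_right_iff_subset]
    exact rectS_sub C m s i k₁ k₂ k₃ k₄
  have hne' : (g '' (Set.Ico 0 1) ∩ rectS C m s i k₁ k₂ k₃ k₄).Nonempty := by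
    refine ⟨g 0, ⟨0, ⟨le_rfl, one_pos⟩, rfl⟩, ?_⟩
    simpa [hg] using hd
  have hall := hpre.subset_left_of_subset_union hS hCc hdis hsub hne'
  constructor
  · intro t ht
    exact hall ⟨t, ht, rfl⟩
  · -- closure
    have hcl : IsClosed (Set.Icc (0 : ℝ) 1 ∩ g ⁻¹' (rectC C m s i k₁ k₂ k₃ k₄)) :=
      hgc.preimage_isClosed_of_isClosed isClosed_Icc (rectC_closed C m s hm hoff i k₁ k₂ k₃ k₄)
    have hsub2 : Set.Ico (0 : ℝ) 1 ⊆ Set.Icc (0 : ℝ) 1 ∩ g ⁻¹' (rectC C m s i k₁ k₂ k₃ k₄) := by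
      intro t ht
      exact ⟨⟨ht.1, ht.2.le⟩, rectS_sub C m s i k₁ k₂ k₃ k₄ (hall ⟨t, ht, rfl⟩)⟩
    have h1mem : (1 : ℝ) ∈ closure (Set.Ico (0 : ℝ) 1) := by
      rw [closure_Ico (by norm_num : (0 : ℝ) ≠ 1)]
      exact ⟨zero_le_one, le_rfl⟩
    have := (hcl.closure_subset_iff.mpr hsub2) h1mem
    have h2 := this.2
    simp only [hg, Set.mem_preimage] at h2
    have e1 : τ₀ + (τ₁ - τ₀) * 1 = τ₁ := by ring
    rw [e1] at h2
    exact h2

/-- all the points of a dart touching the rectangle are in the closed rectangle -/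
theorem key_touch (hm : 1 ≤ m) (hs : Generic C m s) (i : Fin n)
    (k₁ k₂ k₃ k₄ : Fin m) (d : ArrD C m s)
    (hd : line C m s d.1.1 d.1.2.1 ∈ rectS C m s i k₁ k₂ k₃ k₄ ∨
      line C m s d.1.1 d.1.2.2 ∈ rectS C m s i k₁ k₂ k₃ k₄) (t : ℝ) (ht : t ∈ Set.Icc (0 : ℝ) 1) :
    line C m s d.1.1 (d.1.2.1 + (d.1.2.2 - d.1.2.1) * t) ∈ rectC C m s i k₁ k₂ k₃ k₄ := by
  have aux : ∀ d : ArrD C m s, line C m s d.1.1 d.1.2.1 ∈ rectS C m s i k₁ k₂ k₃ k₄ →
      ∀ t ∈ Set.Icc (0 : ℝ) 1,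
      line C m s d.1.1 (d.1.2.1 + (d.1.2.2 - d.1.2.1) * t) ∈ rectC C m s i k₁ k₂ k₃ k₄ := by
    intro d hd t ht
    obtain ⟨ha, hb⟩ := key C m s hm hs i k₁ k₂ k₃ k₄ d hd
    rcases ht.2.lt_or_eq with h | h
    · exact rectS_sub C m s i k₁ k₂ k₃ k₄ (ha t ⟨ht.1, h⟩)
    · rw [h]
      have e1 : d.1.2.1 + (d.1.2.2 - d.1.2.1) * 1 = d.1.2.2 := by ring
      rw [e1]
      exact hb
  rcases hd with hd | hd
  · exact aux d hd t ht
  · have h := aux (arrInv C m s d) hd (1 - t) ⟨by linarith [ht.2], by linarith [ht.1]⟩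
    have e1 : (arrInv C m s d).1.2.1 + ((arrInv C m s d).1.2.2 - (arrInv C m s d).1.2.1) * (1 - t) =
        d.1.2.1 + (d.1.2.2 - d.1.2.1) * t := by
      simp only [arrInv]
      ring
    rw [e1] at h
    exact h

end Rect

section Draw2

variable {M : Type u} [MetricSpace M] {n : ℕ} (C : BoxCharts M n) (m : ℕ)
  (s : Fin n → Bool → ℝ)

/-- the time of the parameter `t` of the dart `d` -/
noncomputable def tm (d : ArrD C m s) (t : ℝ) : ℝ := d.1.2.1 + (d.1.2.2 - d.1.2.1) * t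

theorem tm_mem (d : ArrD C m s) {t : ℝ} (ht : t ∈ Set.Icc (0 : ℝ) 1) :
    tm C m s d t ∈ Set.Icc (0 : ℝ) 1 := by
  have a1 := d.2.1.1
  have a2 := d.2.2.1.1
  rw [Set.mem_Icc] at a1 a2 ht ⊢
  unfold tm
  constructor
  · nlinarith
  · nlinarith

theorem tm_zero (d : ArrD C m s) : tm C m s d 0 = d.1.2.1 := by unfold tm; ring

theorem tm_one (d : ArrD C m s) : tm C m s d 1 = d.1.2.2 := by unfold tm; ring

theorem tm_inv (d : ArrD C m s) (t : ℝ) : tm C m s (arrInv C m s d) t = tm C m s d (1 - t) := by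
  unfold tm arrInv
  simp only
  ring

theorem tm_inj (d : ArrD C m s) {t t' : ℝ} (h : tm C m s d t = tm C m s d t') : t = t' := by
  have hne := d.2.2.2.1
  unfold tm at h
  have h1 : (d.1.2.2 - d.1.2.1) * (t - t') = 0 := by linarith
  rcases mul_eq_zero.mp h1 with h2 | h2
  · exact absurd (sub_eq_zero.mp h2).symm hne
  · linarith

theorem tm_strict (d : ArrD C m s) {t : ℝ} (h0 : 0 < t) (h1 : t < 1) :
    min d.1.2.1 d.1.2.2 < tm C m s d t ∧ tm C m s d t < max d.1.2.1 d.1.2.2 := by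
  have hne := d.2.2.2.1
  unfold tm
  rcases lt_or_gt_of_ne hne with h | h
  · rw [min_eq_left h.le, max_eq_right h.le]
    constructor
    · nlinarith
    · nlinarith
  · rw [min_eq_right h.le, max_eq_left h.le]
    constructor
    · nlinarith
    · nlinarith

theorem tm_between (d : ArrD C m s) {t : ℝ} (h0 : 0 ≤ t) (h1 : t ≤ 1) :
    min d.1.2.1 d.1.2.2 ≤ tm C m s d t ∧ tm C m s d t ≤ max d.1.2.1 d.1.2.2 := by
  have hne := d.2.2.2.1
  unfold tm
  rcases lt_or_gt_of_ne hne with h | h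
  · rw [min_eq_left h.le, max_eq_right h.le]
    constructor
    · nlinarith
    · nlinarith
  · rw [min_eq_right h.le, max_eq_left h.le]
    constructor
    · nlinarith
    · nlinarith

/-- a crossing time is at an end of the dart -/
theorem tm_cross (d : ArrD C m s) {t : ℝ} (ht : t ∈ Set.Icc (0 : ℝ) 1)
    (hc : tm C m s d t ∈ crossT C m s d.1.1) : t = 0 ∨ t = 1 := by
  by_contra hcon
  push Not at hcon
  obtain ⟨h0, h1⟩ := hcon
  exact d.2.2.2.2 _ hc (tm_strict C m s d (lt_of_le_of_ne ht.1 (Ne.symm h0))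
    (lt_of_le_of_ne ht.2 h1))

/-- two darts on the same line with a common inner point are equal or opposite -/
theorem same_line (d d' : ArrD C m s) (hl : d.1.1 = d'.1.1) {t t' : ℝ}
    (ht : t ∈ Set.Icc (0 : ℝ) 1) (ht' : t' ∈ Set.Icc (0 : ℝ) 1)
    (heq : tm C m s d t = tm C m s d' t') (hin : ¬ (t = 0 ∨ t = 1)) :
    d' = d ∨ d' = arrInv C m s d := by
  push Not at hin
  obtain ⟨i0, i1⟩ := hin
  obtain ⟨ha, hb⟩ := tm_strict C m s d (lt_of_le_of_ne ht.1 (Ne.symm i0)) (lt_of_le_of_ne ht.2 i1)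
  obtain ⟨ha', hb'⟩ := tm_between C m s d' ht'.1 ht'.2
  rw [← heq] at ha' hb'
  obtain ⟨⟨l, τ₀, τ₁⟩, h0, h1, hne, hcons⟩ := d
  obtain ⟨⟨l', τ₀', τ₁'⟩, h0', h1', hne', hcons'⟩ := d'
  simp only at hl ha hb ha' hb' h0 h1 hne hcons h0' h1' hne' hcons'
  subst hl
  have e1 : min τ₀' τ₁' ∈ crossT C m s l := by
    rcases min_choice τ₀' τ₁' with h | h <;> rw [h] <;> assumption
  have e2 : max τ₀' τ₁' ∈ crossT C m s l := by
    rcases max_choice τ₀' τ₁' with h | h <;> rw [h] <;> assumption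
  have e3 : min τ₀ τ₁ ∈ crossT C m s l := by
    rcases min_choice τ₀ τ₁ with h | h <;> rw [h] <;> assumption
  have e4 : max τ₀ τ₁ ∈ crossT C m s l := by
    rcases max_choice τ₀ τ₁ with h | h <;> rw [h] <;> assumption
  have f1 := hcons _ e1
  have f2 := hcons _ e2
  have f3 := hcons' _ e3
  have f4 := hcons' _ e4
  have g1 : min τ₀' τ₁' ≤ min τ₀ τ₁ := by
    by_contra hcon
    push Not at hcon
    exact f1 ⟨hcon, lt_of_le_of_lt ha' hb⟩
  have g2 : max τ₀ τ₁ ≤ max τ₀' τ₁' := by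
    by_contra hcon
    push Not at hcon
    exact f2 ⟨lt_of_lt_of_le ha hb', hcon⟩
  have g3 : min τ₀ τ₁ = min τ₀' τ₁' := by
    by_contra hcon
    have : min τ₀' τ₁' < min τ₀ τ₁ := lt_of_le_of_ne g1 (Ne.symm hcon)
    exact f3 ⟨this, lt_of_lt_of_le (ha.trans hb) g2⟩
  have g4 : max τ₀ τ₁ = max τ₀' τ₁' := by
    by_contra hcon
    have : max τ₀ τ₁ < max τ₀' τ₁' := lt_of_le_of_ne g2 hcon
    exact f4 ⟨lt_of_le_of_lt g1 (ha.trans hb), this⟩
  rcases lt_or_gt_of_ne hne with h | h <;> rcases lt_or_gt_of_ne hne' with h' | h'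
  · left
    rw [min_eq_left h.le, min_eq_left h'.le] at g3
    rw [max_eq_right h.le, max_eq_right h'.le] at g4
    subst g3 g4
    rfl
  · right
    rw [min_eq_left h.le, min_eq_right h'.le] at g3
    rw [max_eq_right h.le, max_eq_left h'.le] at g4
    subst g3 g4
    rfl
  · right
    rw [min_eq_right h.le, min_eq_left h'.le] at g3
    rw [max_eq_left h.le, max_eq_right h'.le] at g4
    subst g3 g4
    rfl
  · left
    rw [min_eq_right h.le, min_eq_right h'.le] at g3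
    rw [max_eq_left h.le, max_eq_left h'.le] at g4
    subst g3 g4
    rfl

/-- the drawing -/
noncomputable def cc (i : Fin n) (d : ArrD C m s) (t : ℝ) : ℝ × ℝ :=
  C.e i (line C m s d.1.1 (tm C m s d t))

/-- its derivative -/
noncomputable def cc' (i : Fin n) (d : ArrD C m s) (t : ℝ) : ℝ × ℝ :=
  (d.1.2.2 - d.1.2.1) • tanv C m s i d.1.1 (tm C m s d t)

theorem cc_deriv (hm : 1 ≤ m) (hs : Generic C m s) (i : Fin n) (d : ArrD C m s) {t : ℝ}
    (ht : t ∈ Set.Icc (0 : ℝ) 1)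
    (hsrc : line C m s d.1.1 (tm C m s d t) ∈ (C.e i).source) :
    HasDerivAt (cc C m s i d) (cc' C m s i d t) t := by
  have htI := tm_mem C m s d ht
  have htar := lineP_target C m s hm hs.off d.1.1 htI
  have h1 := trans_diff C d.1.1.1 i htar hsrc
  have h2 : HasDerivAt (tm C m s d) (d.1.2.2 - d.1.2.1) t := by
    unfold tm
    have := ((hasDerivAt_id t).const_mul (d.1.2.2 - d.1.2.1)).const_add d.1.2.1
    simpa using this
  have h3 : HasDerivAt (fun t => lineP m s d.1.1 (tm C m s d t))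
      ((d.1.2.2 - d.1.2.1) • lineE m d.1.1) t := by
    exact HasDerivAt.scomp t (lineP_deriv m s d.1.1 (tm C m s d t)) h2
  have h4 := h1.comp_hasDerivAt t h3
  rw [map_smul] at h4
  exact h4

theorem cc'_cont (hm : 1 ≤ m) (hs : Generic C m s) (i : Fin n) (d : ArrD C m s)
    (hsrc : ∀ t ∈ Set.Icc (0 : ℝ) 1, line C m s d.1.1 (tm C m s d t) ∈ (C.e i).source) :
    ContinuousOn (cc' C m s i d) (Set.Icc 0 1) := by
  have hopen : IsOpen ((C.e d.1.1.1).symm.trans (C.e i)).source :=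
    ((C.e d.1.1.1).symm.trans (C.e i)).open_source
  have h1 : ContinuousOn (fderiv ℝ (fun p => C.e i ((C.e d.1.1.1).symm p)))
      ((C.e d.1.1.1).symm.trans (C.e i)).source :=
    (C.smooth d.1.1.1 i).continuousOn_fderiv_of_isOpen hopen (by norm_num)
  have h2 : Continuous (fun t => lineP m s d.1.1 (tm C m s d t)) := by
    apply (lineP_cont m s d.1.1).comp
    unfold tm
    fun_prop
  have h3 : ContinuousOn (fun t => fderiv ℝ (fun p => C.e i ((C.e d.1.1.1).symm p))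
      (lineP m s d.1.1 (tm C m s d t))) (Set.Icc 0 1) := by
    apply h1.comp h2.continuousOn
    intro t ht
    rw [OpenPartialHomeomorph.trans_source]
    exact ⟨lineP_target C m s hm hs.off d.1.1 (tm_mem C m s d ht), hsrc t ht⟩
  have h4 := h3.clm_apply (continuousOn_const (c := lineE m d.1.1))
  exact h4.const_smul (d.1.2.2 - d.1.2.1)

end Draw2

section Code

variable {M : Type u} [MetricSpace M] {n : ℕ} (C : BoxCharts M n) (m : ℕ)
  (s : Fin n → Bool → ℝ)

/-- the code of a dart in terms of the sign at the crossing, read in any chart -/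
theorem code_val (hm : 1 ≤ m) (hs : Generic C m s) (i : Fin n) (d : ArrD C m s)
    (l' : LineIx n m) (hl' : l' ≠ d.1.1) {t' : ℝ} (ht' : t' ∈ Set.Icc (0 : ℝ) 1)
    (heq : line C m s d.1.1 d.1.2.1 = line C m s l' t')
    (hsrc : line C m s d.1.1 d.1.2.1 ∈ (C.e i).source) :
    (0 < det2 (tanv C m s i d.1.1 d.1.2.1) (tanv C m s i l' t') →
      arrCode C m s d = 0 + (if d.1.2.1 < d.1.2.2 then 0 else 2)) ∧
    (det2 (tanv C m s i d.1.1 d.1.2.1) (tanv C m s i l' t') < 0 →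
      arrCode C m s d = 1 + (if d.1.2.1 < d.1.2.2 then 0 else 2)) := by
  have hI := d.2.1.1
  have hown : line C m s d.1.1 d.1.2.1 ∈ (C.e d.1.1.1).source :=
    (C.e d.1.1.1).map_target (lineP_target C m s hm hs.off d.1.1 hI)
  constructor
  · intro hpos
    unfold arrCode
    rw [if_pos]
    exact ⟨l', hl', t', ht', heq,
      sign_change C m s hm hs.off d.1.1 l' hI ht' heq i d.1.1.1 hsrc hown hpos⟩
  · intro hneg
    unfold arrCode
    rw [if_neg]
    rintro ⟨l'', hl'', t'', ht'', heq'', hpos⟩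
    have h1 : l'' = l' := by
      by_contra hcon
      exact hs.no3 d.1.1 l' l'' (Ne.symm hl') (Ne.symm hcon) (Ne.symm hl'') _ hI _ ht' _ ht''
        ⟨heq, heq''⟩
    subst h1
    have h2 : t'' = t' := line_inj C m s hm hs.off l'' ht'' ht' (heq''.symm.trans heq)
    subst h2
    have h3 := sign_change C m s hm hs.off d.1.1 l'' hI ht' heq d.1.1.1 i hown hsrc hpos
    linarith

theorem dir_lemma (hm : 1 ≤ m) (hs : Generic C m s) (i : Fin n) (l l' : LineIx n m)
    (hll : l' ≠ l) {t t' : ℝ} (ht : t ∈ Set.Icc (0 : ℝ) 1) (ht' : t' ∈ Set.Icc (0 : ℝ) 1)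
    (heq : line C m s l t = line C m s l' t')
    (hsrc : line C m s l t ∈ (C.e i).source)
    (hpos : 0 < det2 (tanv C m s i l t) (tanv C m s i l' t')) (d : ArrD C m s)
    (hd : line C m s d.1.1 d.1.2.1 = line C m s l t) :
    arrCode C m s d < 4 ∧ ∃ μ : ℝ, 0 < μ ∧
      cc' C m s i d 0 = μ • dir4 (tanv C m s i l t) (tanv C m s i l' t') (arrCode C m s d) := by
  have hI := d.2.1.1
  have hne := d.2.2.2.1
  have hcase : d.1.1 = l ∨ d.1.1 = l' := by
    by_contra hcon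
    push Not at hcon
    exact hs.no3 l l' d.1.1 (Ne.symm hll) (Ne.symm hcon.2) (Ne.symm hcon.1) _ ht _ ht' _ hI
      ⟨heq, hd.symm⟩
  rcases hcase with h | h
  · have hd2 : line C m s l d.1.2.1 = line C m s l t := by
      have h9 := hd
      rw [h] at h9
      exact h9
    have hIl : d.1.2.1 = t := line_inj C m s hm hs.off l hI ht hd2
    have heq2 : line C m s d.1.1 d.1.2.1 = line C m s l' t' := hd.trans heq
    have hsrc2 : line C m s d.1.1 d.1.2.1 ∈ (C.e i).source := by rw [hd]; exact hsrc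
    have hcode := (code_val C m s hm hs i d l' (by rw [h]; exact hll) ht' heq2 hsrc2).1
      (by rw [h, hIl]; exact hpos)
    have hcc : cc' C m s i d 0 = (d.1.2.2 - d.1.2.1) • tanv C m s i l t := by
      unfold cc'
      rw [tm_zero, h, hIl]
    rcases lt_or_gt_of_ne hne with h' | h'
    · rw [if_pos h'] at hcode
      rw [hcode]
      refine ⟨by norm_num, d.1.2.2 - d.1.2.1, by linarith, ?_⟩
      rw [hcc]
      rfl
    · rw [if_neg (not_lt.mpr h'.le)] at hcode
      rw [hcode]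
      refine ⟨by norm_num, d.1.2.1 - d.1.2.2, by linarith, ?_⟩
      rw [hcc]
      show _ = (d.1.2.1 - d.1.2.2) • (-(tanv C m s i l t))
      rw [smul_neg, ← neg_smul, neg_sub]
  · have hd2 : line C m s l' d.1.2.1 = line C m s l' t' := by
      have h9 := hd.trans heq
      rw [h] at h9
      exact h9
    have hIl : d.1.2.1 = t' := line_inj C m s hm hs.off l' hI ht' hd2
    have hsrc2 : line C m s d.1.1 d.1.2.1 ∈ (C.e i).source := by rw [hd]; exact hsrc
    have hcode := (code_val C m s hm hs i d l (by rw [h]; exact Ne.symm hll) ht hd hsrc2).2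
      (by rw [h, hIl, det2_swap]; linarith)
    have hcc : cc' C m s i d 0 = (d.1.2.2 - d.1.2.1) • tanv C m s i l' t' := by
      unfold cc'
      rw [tm_zero, h, hIl]
    rcases lt_or_gt_of_ne hne with h' | h'
    · rw [if_pos h'] at hcode
      rw [hcode]
      refine ⟨by norm_num, d.1.2.2 - d.1.2.1, by linarith, ?_⟩
      rw [hcc]
      rfl
    · rw [if_neg (not_lt.mpr h'.le)] at hcode
      rw [hcode]
      refine ⟨by norm_num, d.1.2.1 - d.1.2.2, by linarith, ?_⟩
      rw [hcc]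
      show _ = (d.1.2.1 - d.1.2.2) • (-(tanv C m s i l' t'))
      rw [smul_neg, ← neg_smul, neg_sub]

end Code

end H593

theorem arr_draw {M : Type u} [MetricSpace M] {n : ℕ} (C : BoxCharts M n) (m : ℕ)
    (hm : 1 ≤ m) (s : Fin n → Bool → ℝ) (hs : Generic C m s) {N : Type u} [LinearOrder N]
    (ν : M → N) (G : Rib (ArrD C m s) M (N ×ₗ ℕ)) (hG : IsArrRib C m s ν G)
    (i : Fin n) (k₁ k₂ k₃ k₄ : Fin m) (h12 : k₁ < k₂) (h34 : k₃ < k₄) :
    ∃ (B : Set (ℝ × ℝ)) (c c' : ArrD C m s → ℝ → ℝ × ℝ),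
      Draw G (rectS C m s i k₁ k₂ k₃ k₄) B (C.e i) c c' (arrCode C m s) := by
  have htl : ∀ d, G.tl d = line C m s d.1.1 d.1.2.1 := fun d => by rw [hG.tl]; rfl
  have hhd : ∀ d, G.hd d = line C m s d.1.1 d.1.2.2 := fun d => by
    unfold Rib.hd
    rw [hG.tl, hG.inv]; rfl
  have htouch : ∀ d, G.touch (rectS C m s i k₁ k₂ k₃ k₄) d → ∀ t ∈ Set.Icc (0 : ℝ) 1,
      line C m s d.1.1 (H593.tm C m s d t) ∈ rectS C m s i k₁ k₂ k₃ k₄ ∪
        H593.rectC C m s i k₁ k₂ k₃ k₄ := by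
    intro d hd t ht
    unfold Rib.touch at hd
    rw [htl, hhd] at hd
    exact Or.inr (H593.key_touch C m s hm hs i k₁ k₂ k₃ k₄ d hd t ht)
  have hsrc : ∀ d, G.touch (rectS C m s i k₁ k₂ k₃ k₄) d → ∀ t ∈ Set.Icc (0 : ℝ) 1,
      line C m s d.1.1 (H593.tm C m s d t) ∈ (C.e i).source := by
    intro d hd t ht
    rcases htouch d hd t ht with h | h
    · exact h.1
    · exact (H593.mem_rectC C m s hm hs.off i k₁ k₂ k₃ k₄ h).1
  have hsrc0 : ∀ d, G.touch (rectS C m s i k₁ k₂ k₃ k₄) d → G.tl d ∈ (C.e i).source := by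
    intro d hd
    have h := hsrc d hd 0 ⟨le_rfl, zero_le_one⟩
    rw [H593.tm_zero] at h
    rw [htl]; exact h
  refine ⟨Set.Ioo (lineC m s (i, true, k₁)) (lineC m s (i, true, k₂)) ×ˢ
    Set.Ioo (lineC m s (i, false, k₃)) (lineC m s (i, false, k₄)),
    H593.cc C m s i, H593.cc' C m s i, ?_⟩
  constructor
  · -- start
    intro d hd
    unfold H593.cc
    rw [H593.tm_zero, htl]
  · -- rev
    intro d hd t ht
    rw [hG.inv]
    unfold H593.cc
    rw [H593.tm_inv]
    rfl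
  · -- rev'
    intro d hd t ht
    rw [hG.inv]
    unfold H593.cc'
    rw [H593.tm_inv]
    show (d.1.2.1 - d.1.2.2) • _ = _
    rw [← neg_smul, neg_sub]
    rfl
  · -- deriv
    intro d hd t ht
    exact (H593.cc_deriv C m s hm hs i d ht (hsrc d hd t ht)).hasDerivWithinAt
  · -- cderiv
    intro d hd
    exact H593.cc'_cont C m s hm hs i d (hsrc d hd)
  · -- inj
    intro d hd t ht t' ht' heq
    have h1 := (C.e i).injOn (hsrc d hd t ht) (hsrc d hd t' ht') heq
    exact H593.tm_inj C m s d (H593.line_inj C m s hm hs.off d.1.1 (H593.tm_mem C m s d ht)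
      (H593.tm_mem C m s d ht') h1)
  · -- disj
    intro d d' hd hd' hne hne' t ht t' ht' heq
    have h1 := (C.e i).injOn (hsrc d hd t ht) (hsrc d' hd' t' ht') heq
    rw [hG.inv] at hne'
    by_cases hl : d.1.1 = d'.1.1
    · have h2 : H593.tm C m s d t = H593.tm C m s d' t' := by
        rw [hl] at h1
        exact H593.line_inj C m s hm hs.off _ (H593.tm_mem C m s d ht)
          (H593.tm_mem C m s d' ht') h1
      constructor
      · by_contra hcon
        rcases H593.same_line C m s d d' hl ht ht' h2 hcon with h | h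
        · exact hne h
        · exact hne' h
      · by_contra hcon
        rcases H593.same_line C m s d' d hl.symm ht' ht h2.symm hcon with h | h
        · exact hne h.symm
        · apply hne'
          rw [h]
          rfl
    · constructor
      · exact H593.tm_cross C m s d ht ⟨H593.tm_mem C m s d ht, d'.1.1, fun h => hl h.symm, _,
          H593.tm_mem C m s d' ht', h1⟩
      · exact H593.tm_cross C m s d' ht' ⟨H593.tm_mem C m s d' ht', d.1.1, hl, _,
          H593.tm_mem C m s d ht, h1.symm⟩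
  · -- Pinj
    intro d d' hd hd' heq
    exact (C.e i).injOn (hsrc0 d hd) (hsrc0 d' hd') heq
  · -- dir
    intro v hv
    by_cases hex : ∃ d, G.tl d = v
    · obtain ⟨d₀, hd₀⟩ := hex
      rw [htl] at hd₀
      obtain ⟨hI, l', hl', t', ht', heq⟩ := d₀.2.1
      have hvs : line C m s d₀.1.1 d₀.1.2.1 ∈ (C.e i).source := by rw [hd₀]; exact hv.1
      have hnz := hs.trans d₀.1.1 l' (Ne.symm hl') _ hI _ ht' heq i hvs
      rcases lt_or_gt_of_ne hnz with hneg | hpos
      · refine ⟨tanv C m s i l' t', tanv C m s i d₀.1.1 d₀.1.2.1, ?_, ?_⟩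
        · rw [H593.det2_swap]; linarith
        · intro d hd
          rw [htl] at hd
          exact H593.dir_lemma C m s hm hs i l' d₀.1.1 (Ne.symm hl') ht' hI heq.symm
            (by rw [← heq]; exact hvs) (by rw [H593.det2_swap]; linarith) d
            (by rw [hd, ← heq, hd₀])
      · refine ⟨tanv C m s i d₀.1.1 d₀.1.2.1, tanv C m s i l' t', hpos, ?_⟩
        intro d hd
        rw [htl] at hd
        exact H593.dir_lemma C m s hm hs i d₀.1.1 l' hl' hI ht' heq hvs hpos d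
          (by rw [hd, hd₀])
    · refine ⟨(1, 0), (0, 1), by unfold det2; norm_num, fun d hd => absurd ⟨d, hd⟩ hex⟩
  · -- code_pos
    intro d d' heq hS
    rw [hG.tl] at heq
    rw [hG.pos, hG.pos, heq, Prod.Lex.toLex_lt_toLex]
    simp
  · exact isOpen_Ioo.prod isOpen_Ioo
  · exact (convex_Ioo _ _).prod (convex_Ioo _ _)
  · -- inB
    intro d h1 h2 t ht
    rw [htl] at h1
    rw [hhd] at h2
    have hk := (H593.key C m s hm hs i k₁ k₂ k₃ k₄ d h1).1
    have hmem : line C m s d.1.1 (H593.tm C m s d t) ∈ rectS C m s i k₁ k₂ k₃ k₄ := by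
      rcases ht.2.lt_or_eq with h | h
      · exact hk t ⟨ht.1, h⟩
      · rw [h, H593.tm_one]; exact h2
    exact ⟨⟨hmem.2.1, hmem.2.2.1⟩, hmem.2.2.2.1, hmem.2.2.2.2⟩
  · -- outB
    intro d hd hn hB
    apply hn
    exact ⟨hsrc0 d hd, hB.1.1, hB.1.2, hB.2.1, hB.2.2⟩

end Pool.Agent.TH317.CC
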